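import Pool.Agent.Helper58.GC.Defs

/-!
# GC-H90: Hilbert 90 for an arbitrary subgroup (helper67)

Choose a finite set `X ⊆ K` whose pointwise stabilizer lies in `N` (compactness).  With
`D' = {g ∈ D : g fixes X}` the maps `x ↦ s x`, `s ∈ D / D'`, are distinct on the monoid `K ^ D'`,
so by Dedekind's lemma some sum `∑ f(s) s x` is nonzero.
-/

set_option autoImplicit false

namespace Pool.Agent.Helper58.GC

open Pool.Agent.Helper25.EC Pool.Agent.Helper59.EC

variable {p : ℕ} {K G P Q : Type} [Field K] [Group G] [TopologicalSpace G]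
  [MulSemiringAction G K] [Group P] [Group Q]

/-- An open subgroup contains the pointwise stabilizer of a finite set. -/
theorem exists_fin_fixing [IsTopologicalGroup G] [CompactSpace G] (Fr : Frame p K G)
    (N : Subgroup G) (hN : IsOpen (N : Set G)) :
    ∃ X : Finset K, ∀ g : G, (∀ x ∈ X, g • x = x) → g ∈ N := by
  classical
  have hcpt : IsCompact ((N : Set G)ᶜ) := hN.isClosed_compl.isCompact
  have hop : ∀ x : K, IsOpen ((MulAction.stabilizer G x : Set G)ᶜ) := fun x =>
    (Subgroup.isClosed_of_isOpen _ (Fr.stab x)).isOpen_compl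
  have hcov : (N : Set G)ᶜ ⊆ ⋃ x : K, (MulAction.stabilizer G x : Set G)ᶜ := by
    intro g hg
    by_contra hcon
    apply hg
    have h1 : g = 1 := by
      apply Fr.faithful
      intro x
      by_contra hx
      exact hcon (Set.mem_iUnion.2 ⟨x, fun h => hx h⟩)
    rw [h1]
    exact N.one_mem
  obtain ⟨X, hX⟩ := hcpt.elim_finite_subcover _ hop hcov
  refine ⟨X, fun g hg => ?_⟩
  by_contra hgN
  obtain ⟨x, hx⟩ := Set.mem_iUnion.1 (hX hgN)
  obtain ⟨hxX, hx2⟩ := Set.mem_iUnion.1 hx
  exact hx2 (hg x hxX)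

/-- GC-H90. Continuous Hilbert 90 for an arbitrary subgroup. -/
theorem hilbert90 [IsTopologicalGroup G] [CompactSpace G] (Fr : Frame p K G) (D : Subgroup G)
    (f : G → K) (N : Subgroup G) (hN : IsOpen (N : Set G)) (h0 : ∀ σ ∈ D, f σ ≠ 0)
    (hc : ∀ σ ∈ D, ∀ ν ∈ D, ν ∈ N → f (σ * ν) = f σ)
    (hf : ∀ σ ∈ D, ∀ τ ∈ D, f (σ * τ) = f σ * σ • f τ) :
    ∃ y : K, y ≠ 0 ∧ ∀ σ ∈ D, f σ * σ • y = y := by
  classical
  obtain ⟨X, hX⟩ := exists_fin_fixing Fr N hN
  -- the pointwise stabilizer of `X`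
  let H : Subgroup G := fixingSubgroup G (X : Set K)
  have hHmem : ∀ g : G, g ∈ H ↔ ∀ x ∈ X, g • x = x := by
    intro g
    rw [mem_fixingSubgroup_iff]
    rfl
  have hHopen : IsOpen (H : Set G) := by
    have : (H : Set G) = ⋂ x ∈ X, (MulAction.stabilizer G x : Set G) := by
      ext g
      simp only [SetLike.mem_coe, hHmem, Set.mem_iInter, MulAction.mem_stabilizer_iff]
    rw [this]
    exact isOpen_biInter_finset fun x _ => Fr.stab x
  have : Finite (G ⧸ H) := Subgroup.quotient_finite_of_isOpen H hHopen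
  have : H.FiniteIndex := Subgroup.finiteIndex_of_finite_quotient
  have : Finite (D ⧸ H.subgroupOf D) := inferInstance
  have : Fintype (D ⧸ H.subgroupOf D) := Fintype.ofFinite _
  -- the monoid of elements fixed by `D ∩ H`
  let M : Submonoid K :=
    { carrier := {x | ∀ g ∈ D, g ∈ H → g • x = x}
      one_mem' := fun g _ _ => smul_one g
      mul_mem' := by
        intro a b ha hb g hg hg'
        rw [smul_mul', ha g hg hg', hb g hg hg'] }
  let χ : (D ⧸ H.subgroupOf D) → (M →* K) := fun q =>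
    (MulSemiringAction.toRingHom G K (q.out : G)).toMonoidHom.comp M.subtype
  have hχ : ∀ q (x : M), χ q x = (q.out : G) • (x : K) := fun q x => rfl
  have hinj : Function.Injective χ := by
    intro q r hqr
    have h1 : ((q.out : D)⁻¹ * (r.out : D)) ∈ H.subgroupOf D := by
      rw [Subgroup.mem_subgroupOf, hHmem]
      intro x hx
      have hxM : x ∈ M := fun g _ hg => (hHmem g).1 hg x hx
      have h2 := congrArg (fun φ : M →* K => φ ⟨x, hxM⟩) hqr
      simp only [hχ] at h2
      push_cast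
      rw [mul_smul, ← h2, inv_smul_smul]
    have := QuotientGroup.eq.2 h1
    rwa [QuotientGroup.out_eq', QuotientGroup.out_eq'] at this
  have hli := (linearIndependent_monoidHom M K).comp χ hinj
  obtain ⟨x, hx⟩ : ∃ x : M, (∑ q : D ⧸ H.subgroupOf D, f (q.out : D) * (q.out : G) • (x : K)) ≠ 0 := by
    by_contra hcon
    push Not at hcon
    rw [Fintype.linearIndependent_iff] at hli
    have h3 := hli (fun q : D ⧸ H.subgroupOf D => f (q.out : D)) (by
      funext x
      simp only [Finset.sum_apply, Pi.smul_apply, smul_eq_mul, Function.comp_apply, hχ,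
        Pi.zero_apply]
      exact hcon x)
    exact h0 _ ((QuotientGroup.mk (1 : D) : D ⧸ H.subgroupOf D).out).2
      (h3 (QuotientGroup.mk (1 : D)))
  refine ⟨_, hx, ?_⟩
  intro t ht
  rw [Finset.smul_sum, Finset.mul_sum]
  have key : ∀ q : D ⧸ H.subgroupOf D,
      f t * t • (f (q.out : D) * (q.out : G) • (x : K)) =
        (fun r : D ⧸ H.subgroupOf D => f (r.out : D) * (r.out : G) • (x : K))
          (MulAction.toPerm (⟨t, ht⟩ : D) q) := by
    intro q
    simp only [MulAction.toPerm_apply]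
    have e1 : f t * t • (f (q.out : D) * (q.out : G) • (x : K)) =
        f (t * (q.out : D)) * (t * (q.out : D)) • (x : K) := by
      rw [smul_mul', ← mul_assoc, ← hf t ht _ (q.out : D).2, mul_smul]
    rw [e1]
    -- `t * q.out = (t • q).out * ν`
    have h4 : (((⟨t, ht⟩ : D) • q).out : D)⁻¹ * ((⟨t, ht⟩ : D) * (q.out : D)) ∈
        H.subgroupOf D := by
      rw [← QuotientGroup.eq, QuotientGroup.out_eq']
      conv_lhs => rw [← QuotientGroup.out_eq' q]
      rfl
    rw [Subgroup.mem_subgroupOf] at h4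
    set r := ((⟨t, ht⟩ : D) • q).out with hr
    set ν : D := r⁻¹ * ((⟨t, ht⟩ : D) * (q.out : D)) with hν
    have e2 : t * ((q.out : D) : G) = (r : G) * (ν : G) := by
      rw [hν]
      push_cast
      group
    rw [e2, hc _ r.2 _ ν.2 (hX _ ((hHmem _).1 h4)), mul_smul, x.2 _ ν.2 h4]
  rw [Finset.sum_congr rfl (fun q _ => key q)]
  exact Equiv.sum_comp (MulAction.toPerm (⟨t, ht⟩ : D))
    (fun r : D ⧸ H.subgroupOf D => f (r.out : D) * (r.out : G) • (x : K))

end Pool.Agent.Helper58.GC
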